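import Pool.Agent.Lib.MP_70d11c_co.Main

namespace Pool.Agent.Results.MP_70d11c_co.Diameter

open Pool.Agent.Lib.MP_70d11c_co

/-- Question 1 of Brualdi and Goldwasser: for every `n ≥ 2` and `k` for which there is a tree on
`n` vertices of diameter at most `k`, the maximum of the Laplacian ratio over these trees is
`maxRatio n k`. -/
theorem result (n k : ℕ) (hn : 2 ≤ n)
    (hex : ∃ T : SimpleGraph (Fin n), T.IsTree ∧ T.ediam ≤ k) :
    IsGreatest {x : ℚ | ∃ T : SimpleGraph (Fin n), T.IsTree ∧ T.ediam ≤ k ∧ lapRatio T = x}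
      (maxRatio n k) :=
  main n k hn hex

end Pool.Agent.Results.MP_70d11c_co.Diameter
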