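import Pool.Agent.Lib.MP_70d11c_co.Q2.Main

namespace Pool.Agent.Results.MP_70d11c_co.Matching

open Pool.Agent.Lib.MP_70d11c_co Pool.Agent.Lib.MP_70d11c_co.Q2

/-- Question 2 of Brualdi and Goldwasser: for every `n ≥ 2` and `k` for which there is a tree on
`n` vertices of matching number at most `k`, the maximum of the Laplacian ratio over these trees
is the largest element of the explicit finite set `Cand n k`. -/
theorem result (n k : ℕ) (hn : 2 ≤ n)
    (hex : ∃ T : SimpleGraph (Fin n), T.IsTree ∧ MatchLe T k) :
    ∃ v : ℚ, IsGreatest (Cand n k) v ∧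
      IsGreatest {x : ℚ | ∃ T : SimpleGraph (Fin n), T.IsTree ∧ MatchLe T k ∧ lapRatio T = x} v :=
  mainStm n k hn hex

end Pool.Agent.Results.MP_70d11c_co.Matching
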